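import Pool.Agent.H30.ChB

set_option autoImplicit false

namespace Pool.Agent.Results.MP_8c4e2c_gt.CH

open Pool.Agent.H30.Ch

/-- Under CH the statement of the problem fails. -/
theorem result (h : (Cardinal.continuum : Cardinal.{0}) = Cardinal.aleph 1) :
    ¬ ∀ (X : Type) [TopologicalSpace X] [T35Space X],
      (∀ S : Set {f : X → ℝ // Continuous f},
          ∃ c ⊆ S, c.Countable ∧ S ⊆ closure c) →
      ∃ D : Set {f : X → ℝ // Continuous f}, D.Countable ∧ seqClosure D = Set.univ := by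
  intro H
  obtain ⟨x, hx⟩ := exists_gen h
  obtain ⟨D, h1, h2⟩ := H (Set.range x) (cp_hs hx.hl)
  obtain ⟨g, h3, h4⟩ := hx.not_seq (h1.image Subtype.val) (by
    rintro _ ⟨f, -, rfl⟩
    exact f.2)
  obtain ⟨u, h5, h6⟩ := h2.ge (Set.mem_univ ⟨g, h3⟩)
  exact h4 (fun n => (u n).1) (fun n => ⟨_, h5 n, rfl⟩) ((continuous_subtype_val.tendsto _).comp h6)

end Pool.Agent.Results.MP_8c4e2c_gt.CH
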